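import Pool.Agent.P.MP_382f0d_gt.KN.Lab
import Pool.Agent.P.MP_382f0d_gt.KN.Main
import Pool.Agent.P.MP_382f0d_gt.KN.Eval
import Pool.Agent.P.MP_382f0d_gt.KN.Fin
import Pool.Agent.P.MP_382f0d_gt.KN.Poly

namespace Pool.Agent.Results.MP_382f0d_gt.KnotNotFG

open Pool.Agent.P.MP_382f0d_gt Pool.Agent.P.MP_382f0d_gt.KN

/-- There is a knot (a nonempty link with one component) whose complement has a Kauffman bracket
skein module over `ℚ(A)` that is not finitely generated over the algebra of its meridian. -/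
theorem result : ∃ L : PLink, (∃ v, L.next v ≠ v) ∧
    (∀ v w, L.next v ≠ v → L.next w ≠ w → L.next.SameCycle v w) ∧ ¬ FGOverMeridians L := by
  obtain ⟨L, h1, h2⟩ := knot_of (fun C _ _ _ _ ha => granny_lab C ha) final_knot
    (exists_granny_of exists_gr.choose_spec)
  exact ⟨L, h1.1, h1.2, h2⟩

end Pool.Agent.Results.MP_382f0d_gt.KnotNotFG
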